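import Pool.Agent.Helper29.MM.Stmts_B3

/-!
# Project MM, block B3: rows R5 (interpolation on a segment) and R9 (absorption)
-/

open MeasureTheory

namespace CM

variable {n : ℕ}

/-! ### monotonicity and limits of the constants -/

theorem H0.mono {K K' : ℝ} {f : E n → ℝ} (h : H0 K f) (hK : K ≤ K') : H0 K' f :=
  ⟨fun x => (h.1 x).trans hK,
    fun x y => (h.2 x y).trans (mul_le_mul_of_nonneg_right hK (Real.sqrt_nonneg _))⟩

theorem H0.nonneg {K : ℝ} {f : E n → ℝ} (h : H0 K f) : 0 ≤ K :=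
  (abs_nonneg _).trans (h.1 0)

theorem HB.mono' {k : ℕ} {K K' : ℝ} {f : E n → ℝ} (h : HB k K f) (hK : K ≤ K') : HB k K' f :=
  ⟨h.1, fun l hl => (h.2 l hl).mono hK⟩

theorem H2.mono' {k : ℕ} {K K' : ℝ} {f : E n → ℝ} (h : H2 k K f) (hK : K ≤ K') : H2 k K' f :=
  ⟨h.1, fun i j => (h.2 i j).mono' hK⟩

theorem H0.lim {K : ℝ} {f : E n → ℝ} (h : ∀ ε > 0, H0 (K + ε) f) : H0 K f := by
  refine ⟨fun x => ?_, fun x y => ?_⟩
  · exact le_of_forall_pos_le_add fun ε hε => (h ε hε).1 x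
  · rcases eq_or_lt_of_le (Real.sqrt_nonneg (dist x y)) with h0 | h0
    · have := (h 1 one_pos).2 x y
      rw [← h0] at this ⊢
      simpa using this
    · refine le_of_forall_pos_le_add fun ε hε => ?_
      have := (h (ε / Real.sqrt (dist x y)) (div_pos hε h0)).2 x y
      rw [add_mul, div_mul_cancel₀ _ h0.ne'] at this
      exact this

theorem HB.lim {k : ℕ} {K : ℝ} {f : E n → ℝ} (h : ∀ ε > 0, HB k (K + ε) f) : HB k K f :=
  ⟨(h 1 one_pos).1, fun l hl => H0.lim fun ε hε => (h ε hε).2 l hl⟩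

theorem H2.lim {k : ℕ} {K : ℝ} {f : E n → ℝ} (h : ∀ ε > 0, H2 k (K + ε) f) : H2 k K f :=
  ⟨(h 1 one_pos).1, fun i j => HB.lim fun ε hε => (h ε hε).2 i j⟩

/-- Absorption: abstract form. -/
theorem absorb {P : ℝ → Prop} (mono : ∀ K K', K ≤ K' → P K → P K')
    (lim : ∀ K, (∀ ε > 0, P (K + ε)) → P K) {B : ℝ} (h0 : ∃ M, P M)
    (hs : ∀ M, P M → P (M / 2 + B)) : P (2 * B) := by
  obtain ⟨M, hM⟩ := h0
  have key : ∀ k : ℕ, P ((M - 2 * B) / 2 ^ k + 2 * B) := by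
    intro k
    induction k with
    | zero => simpa using hM
    | succ k ih =>
      have := hs _ ih
      have e : ((M - 2 * B) / 2 ^ k + 2 * B) / 2 + B = (M - 2 * B) / 2 ^ (k + 1) + 2 * B := by
        rw [pow_succ]; field_simp; ring
      rwa [e] at this
  refine lim _ fun ε hε => ?_
  obtain ⟨k, hk⟩ := exists_nat_gt (|M - 2 * B| / ε)
  refine mono _ _ ?_ (key k)
  have h2 : (k : ℝ) < 2 ^ k := by exact_mod_cast Nat.lt_two_pow_self
  have h3 : |M - 2 * B| / ε < 2 ^ k := hk.trans h2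
  have h4 : |M - 2 * B| < 2 ^ k * ε := (div_lt_iff₀ hε).1 h3
  have h5 : (M - 2 * B) / 2 ^ k ≤ ε := by
    rw [div_le_iff₀ (by positivity)]
    linarith [le_abs_self (M - 2 * B)]
  linarith

/-- Absorption for a family of functions in `H0`. -/
theorem H0.absorb {ι : Sort*} {f : ι → E n → ℝ} {B : ℝ} (h0 : ∃ M, ∀ i, H0 M (f i))
    (hs : ∀ M, (∀ i, H0 M (f i)) → ∀ i, H0 (M / 2 + B) (f i)) : ∀ i, H0 (2 * B) (f i) :=
  CM.absorb (P := fun M => ∀ i, H0 M (f i)) (fun _ _ hK h i => (h i).mono hK)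
    (fun _ h i => H0.lim fun ε hε => h ε hε i) h0 hs

/-- Absorption for a family of functions in `HB`. -/
theorem HB.absorb {ι : Sort*} {k : ℕ} {f : ι → E n → ℝ} {B : ℝ} (h0 : ∃ M, ∀ i, HB k M (f i))
    (hs : ∀ M, (∀ i, HB k M (f i)) → ∀ i, HB k (M / 2 + B) (f i)) : ∀ i, HB k (2 * B) (f i) :=
  CM.absorb (P := fun M => ∀ i, HB k M (f i)) (fun _ _ hK h i => (h i).mono' hK)
    (fun _ h i => HB.lim fun ε hε => h ε hε i) h0 hs

/-- Absorption in `H2`. -/
theorem H2.absorb {k : ℕ} {u : E n → ℝ} {B : ℝ} (h0 : ∃ M, H2 k M u)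
    (hs : ∀ M, H2 k M u → H2 k (M / 2 + B) u) : H2 k (2 * B) u :=
  CM.absorb (P := fun M => H2 k M u) (fun _ _ hK h => h.mono' hK)
    (fun _ h => H2.lim fun ε hε => h ε hε) h0 hs

/-! ### R5: interpolation on a segment -/

/-- The derivative along a coordinate segment. -/
theorem hasDerivAt_seg {g : E n → ℝ} (i : Fin n) (x : E n) (t : ℝ)
    (hg : DifferentiableAt ℝ g (x + t • EuclideanSpace.single i (1 : ℝ))) :
    HasDerivAt (fun t : ℝ => g (x + t • EuclideanSpace.single i (1 : ℝ)))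
      (pd i g (x + t • EuclideanSpace.single i (1 : ℝ))) t := by
  have h1 : HasDerivAt (fun t : ℝ => x + t • EuclideanSpace.single i (1 : ℝ))
      (EuclideanSpace.single i (1 : ℝ)) t := by
    simpa using ((hasDerivAt_id t).smul_const (EuclideanSpace.single i (1 : ℝ))).const_add x
  exact hg.hasFDerivAt.comp_hasDerivAt t h1

theorem norm_single_one (i : Fin n) : ‖(EuclideanSpace.single i (1 : ℝ) : E n)‖ = 1 := by
  simp

theorem dist_seg (i : Fin n) (x : E n) {t : ℝ} (ht : 0 ≤ t) :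
    dist (x + t • EuclideanSpace.single i (1 : ℝ)) x = t := by
  rw [dist_eq_norm, add_sub_cancel_left, norm_smul, norm_single_one, mul_one, Real.norm_eq_abs,
    abs_of_nonneg ht]

/-- **R5 (INT1), explicit form.** Interpolation: if `|g| ≤ G` on the ball of radius `s` about `x`
and `pd i g` has Hoelder constant `H` at `x`, then `|pd i g x| ≤ 2 G / s + H √s`. -/
theorem pd_interp_explicit {g : E n → ℝ} (i : Fin n) (x : E n) {s G H : ℝ} (hs : 0 < s)
    (hd : ∀ y ∈ Metric.closedBall x s, DifferentiableAt ℝ g y)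
    (hG : ∀ y ∈ Metric.closedBall x s, |g y| ≤ G)
    (hH0 : 0 ≤ H)
    (hH : ∀ y ∈ Metric.closedBall x s, |pd i g y - pd i g x| ≤ H * Real.sqrt (dist y x)) :
    |pd i g x| ≤ 2 * G / s + H * Real.sqrt s := by
  have hmem : ∀ t ∈ Set.Icc (0 : ℝ) s,
      x + t • EuclideanSpace.single i (1 : ℝ) ∈ Metric.closedBall x s := by
    intro t ht
    rw [Metric.mem_closedBall, dist_seg i x ht.1]
    exact ht.2
  obtain ⟨ξ, hξ, hξ'⟩ := exists_hasDerivAt_eq_slope
    (fun t : ℝ => g (x + t • EuclideanSpace.single i (1 : ℝ)))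
    (fun t : ℝ => pd i g (x + t • EuclideanSpace.single i (1 : ℝ))) hs
    (fun t ht => (hasDerivAt_seg i x t (hd _ (hmem t ht))).continuousAt.continuousWithinAt)
    (fun t ht => hasDerivAt_seg i x t (hd _ (hmem t ⟨ht.1.le, ht.2.le⟩)))
  have hξI : ξ ∈ Set.Icc (0 : ℝ) s := ⟨hξ.1.le, hξ.2.le⟩
  have h1 : |pd i g (x + ξ • EuclideanSpace.single i (1 : ℝ))| ≤ 2 * G / s := by
    rw [hξ', abs_div, sub_zero, abs_of_pos hs]
    refine div_le_div_of_nonneg_right ?_ hs.le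
    have a1 := hG _ (hmem s ⟨hs.le, le_refl _⟩)
    have a2 := hG _ (hmem 0 ⟨le_refl _, hs.le⟩)
    calc _ ≤ |g (x + s • EuclideanSpace.single i (1 : ℝ))|
          + |g (x + (0 : ℝ) • EuclideanSpace.single i (1 : ℝ))| := abs_sub _ _
      _ ≤ 2 * G := by linarith
  have h2 := hH _ (hmem ξ hξI)
  rw [dist_seg i x hξI.1] at h2
  have h3 : H * Real.sqrt ξ ≤ H * Real.sqrt s :=
    mul_le_mul_of_nonneg_left (Real.sqrt_le_sqrt hξI.2) hH0
  have h4 : |pd i g x| ≤ |pd i g (x + ξ • EuclideanSpace.single i (1 : ℝ))|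
      + |pd i g (x + ξ • EuclideanSpace.single i (1 : ℝ)) - pd i g x| := by
    have := abs_sub (pd i g (x + ξ • EuclideanSpace.single i (1 : ℝ)))
      (pd i g (x + ξ • EuclideanSpace.single i (1 : ℝ)) - pd i g x)
    simpa using this
  linarith

/-- **R5 (INT1).** For `0 < ε ≤ 1`: `|pd i g x| ≤ ε H + (2 / ε²) sup_{B(x,1)} |g|`. -/
theorem pd_interp {g : E n → ℝ} (i : Fin n) (x : E n) {ε G H : ℝ} (hε : 0 < ε) (hε1 : ε ≤ 1)
    (hd : ∀ y ∈ Metric.closedBall x 1, DifferentiableAt ℝ g y)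
    (hG : ∀ y ∈ Metric.closedBall x 1, |g y| ≤ G)
    (hH0 : 0 ≤ H)
    (hH : ∀ y ∈ Metric.closedBall x 1, |pd i g y - pd i g x| ≤ H * Real.sqrt (dist y x)) :
    |pd i g x| ≤ ε * H + 2 / ε ^ 2 * G := by
  have hs : 0 < ε ^ 2 := by positivity
  have hs1 : ε ^ 2 ≤ 1 := pow_le_one₀ hε.le hε1
  have hsub : Metric.closedBall x (ε ^ 2) ⊆ Metric.closedBall x 1 :=
    Metric.closedBall_subset_closedBall hs1
  have := pd_interp_explicit i x hs (fun y hy => hd y (hsub hy)) (fun y hy => hG y (hsub hy)) hH0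
    (fun y hy => hH y (hsub hy))
  rw [Real.sqrt_sq hε.le] at this
  calc |pd i g x| ≤ 2 * G / ε ^ 2 + H * ε := this
    _ = ε * H + 2 / ε ^ 2 * G := by ring

/-- **R5, global form.** If `pd i g` is `H0 H` and `|g| ≤ G` on a ball of radius `R + 1`, then
`|pd i g| ≤ ε H + (2/ε²) G` on the ball of radius `R`. -/
theorem pd_interp_H0 {g : E n → ℝ} (hg : Differentiable ℝ g) (i : Fin n) {ε G H R : ℝ}
    (hε : 0 < ε) (hε1 : ε ≤ 1) (hG : ∀ y, ‖y‖ ≤ R + 1 → |g y| ≤ G) (hH : H0 H (pd i g)) :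
    ∀ x, ‖x‖ ≤ R → |pd i g x| ≤ ε * H + 2 / ε ^ 2 * G := by
  intro x hx
  refine pd_interp i x hε hε1 (fun y _ => hg y) (fun y hy => hG y ?_) hH.nonneg
    (fun y _ => hH.2 y x)
  rw [Metric.mem_closedBall, dist_eq_norm] at hy
  calc ‖y‖ = ‖x + (y - x)‖ := by rw [add_sub_cancel]
    _ ≤ ‖x‖ + ‖y - x‖ := norm_add_le _ _
    _ ≤ R + 1 := by linarith

/-- **R5, everywhere.** -/
theorem pd_interp_H0' {g : E n → ℝ} (hg : Differentiable ℝ g) (i : Fin n) {ε G H : ℝ}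
    (hε : 0 < ε) (hε1 : ε ≤ 1) (hG : ∀ y, |g y| ≤ G) (hH : H0 H (pd i g)) :
    ∀ x, |pd i g x| ≤ ε * H + 2 / ε ^ 2 * G := by
  intro x
  exact pd_interp i x hε hε1 (fun y _ => hg y) (fun y _ => hG y) hH.nonneg (fun y _ => hH.2 y x)

/-- **Row INT1.** -/
theorem row_INT1 (n : ℕ) : StINT1 n := by
  intro ε hε
  set δ : ℝ := min 1 ε with hδd
  have hδ : 0 < δ := lt_min one_pos hε
  have hδ1 : δ ≤ 1 := min_le_left _ _
  refine ⟨2 / δ ^ 2, by positivity, ?_⟩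
  intro g x H B hg hH0 hB0 hH hB i
  have h1 := pd_interp (g := g) (G := B) (H := H) i x hδ hδ1
    (fun y _ => (hg.differentiable one_ne_zero) y) hB hH0
    (fun y hy => by rw [abs_sub_comm, dist_comm]; exact hH i y hy)
  have h2 : δ * H ≤ ε * H := mul_le_mul_of_nonneg_right (min_le_right _ _) hH0
  linarith

end CM
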