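import Pool.Agent.Helper29.MM.Stmts_B3
import Pool.Agent.Helper32.MM.DefsB2

/-!
# Project MM, blocks B2/B3: the bridge `ST_CORE → BE0 n`
-/

open MeasureTheory

namespace CM

variable {n : ℕ}

/-- second derivative along vectors, in terms of the second Fréchet derivative -/
theorem d2_eq_fderiv {u : E n → ℝ} (hu : ContDiff ℝ 2 u) (a b x : E n) :
    MMB2.d2 a b u x = fderiv ℝ (fderiv ℝ u) x b a := by
  have h1 : DifferentiableAt ℝ (fderiv ℝ u) x :=
    ((hu.fderiv_right (m := 1) (by norm_num)).differentiable one_ne_zero) x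
  unfold MMB2.d2 MMB2.d1
  rw [fderiv_clm_apply h1 (differentiableAt_const a)]
  simp

theorem pd_pd_eq_fderiv {u : E n → ℝ} (hu : ContDiff ℝ 2 u) (i j : Fin n) (x : E n) :
    pd i (pd j u) x = fderiv ℝ (fderiv ℝ u) x (EuclideanSpace.single i (1 : ℝ))
      (EuclideanSpace.single j (1 : ℝ)) :=
  d2_eq_fderiv hu _ _ x

theorem pd_pd_eq_d2 (u : E n → ℝ) (i j : Fin n) :
    pd i (pd j u) = MMB2.d2 (EuclideanSpace.single j (1 : ℝ)) (EuclideanSpace.single i (1 : ℝ)) u :=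
  rfl

theorem sum_single_smul (a : E n) :
    a = ∑ i, a i • (EuclideanSpace.single i (1 : ℝ) : E n) := by
  ext j
  simp [Finset.sum_apply, Pi.single_apply]

/-- `d2 a b u` in coordinates -/
theorem d2_eq_sum {u : E n → ℝ} (hu : ContDiff ℝ 2 u) (a b x : E n) :
    MMB2.d2 a b u x = ∑ i, ∑ j, b i * a j * pd i (pd j u) x := by
  rw [d2_eq_fderiv hu]
  conv_lhs => rw [sum_single_smul a, sum_single_smul b]
  simp only [map_sum, map_smul, sum_apply, smul_apply, smul_eq_mul, Finset.mul_sum]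
  rw [Finset.sum_comm]
  refine Finset.sum_congr rfl fun i _ => Finset.sum_congr rfl fun j _ => ?_
  rw [pd_pd_eq_fderiv hu]
  ring

theorem abs_coord_le (a : E n) (i : Fin n) : |a i| ≤ ‖a‖ := by
  rw [EuclideanSpace.norm_eq]
  refine Real.abs_le_sqrt ?_
  have := Finset.single_le_sum (f := fun i => ‖a i‖ ^ 2) (fun _ _ => sq_nonneg _)
    (Finset.mem_univ i)
  simpa using this

theorem d2_bound {u : E n → ℝ} (hu : ContDiff ℝ 2 u) {M : ℝ} (x : E n)
    (hM : ∀ i j, |pd i (pd j u) x| ≤ M) (a b : E n) :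
    |MMB2.d2 a b u x| ≤ (n * n * |M|) * ‖a‖ * ‖b‖ := by
  rw [d2_eq_sum hu]
  calc |∑ i, ∑ j, b i * a j * pd i (pd j u) x|
      ≤ ∑ i : Fin n, ∑ j : Fin n, ‖b‖ * ‖a‖ * |M| := by
        refine (Finset.abs_sum_le_sum_abs _ _).trans (Finset.sum_le_sum fun i _ => ?_)
        refine (Finset.abs_sum_le_sum_abs _ _).trans (Finset.sum_le_sum fun j _ => ?_)
        rw [abs_mul, abs_mul]
        refine mul_le_mul (mul_le_mul (abs_coord_le b i) (abs_coord_le a j) (abs_nonneg _)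
          (norm_nonneg _)) ((hM i j).trans (le_abs_self M)) (abs_nonneg _) (by positivity)
    _ = _ := by
        simp only [Finset.sum_const, Finset.card_univ, Fintype.card_fin, nsmul_eq_mul]
        ring

/-! ### Square root of a matrix -/

open scoped MatrixOrder in
/-- Symmetric square root. -/
theorem exists_sqrt_matrix {c C : ℝ} (hc : 0 < c) {τ : Mt n} (hs : ∀ i j, τ i j = τ j i)
    (hlo : LB c τ) (hup : UB C τ) :
    ∃ Q : E n ≃L[ℝ] E n, (∀ x y : E n, inner ℝ (Q x) y = inner ℝ x (Q y)) ∧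
      (∀ i j, inner ℝ (Q (EuclideanSpace.single i (1 : ℝ))) (Q (EuclideanSpace.single j (1 : ℝ)))
        = τ i j) ∧
      ‖(Q : E n →L[ℝ] E n)‖ ≤ Real.sqrt C ∧ ‖(Q.symm : E n →L[ℝ] E n)‖ ≤ 1 / Real.sqrt c := by
  have hpos : 0 ≤ τ := by
    rw [Matrix.nonneg_iff_posSemidef]
    refine Matrix.PosSemidef.of_dotProduct_mulVec_nonneg ?_ ?_
    · ext i j
      simp [hs i j]
    · intro v
      have h := hlo v
      have h2 : 0 ≤ c * ∑ i, v i ^ 2 := by positivity
      have e : star v ⬝ᵥ τ.mulVec v = ∑ i, ∑ j, v i * τ i j * v j := by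
        simp only [dotProduct, Matrix.mulVec, star_trivial, Finset.mul_sum, mul_assoc]
      rw [e]
      exact h2.trans h
  set S : Mt n := CFC.sqrt τ with hS
  have hSS : S * S = τ := CFC.sqrt_mul_sqrt_self τ hpos
  have hSh : S.IsHermitian := (Matrix.nonneg_iff_posSemidef.1 (CFC.sqrt_nonneg τ)).1
  have hSsym : ∀ i j, S i j = S j i := fun i j => by
    have := hSh.apply i j
    simpa using this.symm
  set L : E n →L[ℝ] E n := Matrix.toEuclideanCLM (𝕜 := ℝ) S with hL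
  have hLapp : ∀ (x : E n) (i : Fin n), L x i = ∑ j, S i j * x j := by
    intro x i
    rw [hL]
    simp [Matrix.ofLp_toEuclideanCLM, Matrix.mulVec, dotProduct]
  have hin : ∀ x y : E n, inner ℝ x y = ∑ i, x i * y i := by
    intro x y
    simp [PiLp.inner_apply, mul_comm]
  have hLsym : ∀ x y : E n, inner ℝ (L x) y = inner ℝ x (L y) := by
    intro x y
    rw [hin, hin]
    simp only [hLapp, Finset.sum_mul, Finset.mul_sum]
    rw [Finset.sum_comm]
    refine Finset.sum_congr rfl fun i _ => Finset.sum_congr rfl fun j _ => ?_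
    rw [hSsym j i]; ring
  have hLL : ∀ x y : E n, inner ℝ (L x) (L y) = ∑ i, ∑ j, x i * τ i j * y j := by
    intro x y
    rw [hLsym, hin]
    refine Finset.sum_congr rfl fun i _ => ?_
    rw [hLapp]
    simp only [hLapp, Finset.mul_sum]
    rw [Finset.sum_comm]
    refine Finset.sum_congr rfl fun j _ => ?_
    rw [← hSS, Matrix.mul_apply, Finset.mul_sum, Finset.sum_mul]
    refine Finset.sum_congr rfl fun k _ => ?_
    ring
  have hnsq : ∀ x : E n, ‖x‖ ^ 2 = ∑ i, x i ^ 2 := fun x => by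
    rw [EuclideanSpace.norm_sq_eq]; simp
  have hlow : ∀ x : E n, c * ‖x‖ ^ 2 ≤ ‖L x‖ ^ 2 := by
    intro x
    rw [← real_inner_self_eq_norm_sq (L x), hLL, hnsq]
    exact hlo _
  have hupp : ∀ x : E n, ‖L x‖ ^ 2 ≤ C * ‖x‖ ^ 2 := by
    intro x
    rw [← real_inner_self_eq_norm_sq (L x), hLL, hnsq]
    exact hup _
  have hinj : Function.Injective (L : E n →ₗ[ℝ] E n) := by
    rw [← LinearMap.ker_eq_bot, LinearMap.ker_eq_bot']
    intro x hx
    have h := hlow x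
    have hx' : L x = 0 := hx
    rw [hx', norm_zero] at h
    have h2 : ‖x‖ ^ 2 ≤ 0 := by
      have : c * ‖x‖ ^ 2 ≤ 0 := by simpa using h
      by_contra h3
      push Not at h3
      nlinarith
    have h3 : ‖x‖ = 0 := by
      have := le_antisymm h2 (sq_nonneg _)
      exact pow_eq_zero_iff two_ne_zero |>.1 this
    exact norm_eq_zero.1 h3
  set Q : E n ≃L[ℝ] E n :=
    (LinearEquiv.ofInjectiveEndo (L : E n →ₗ[ℝ] E n) hinj).toContinuousLinearEquiv with hQ
  have hQL : ∀ x, Q x = L x := fun x => rfl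
  refine ⟨Q, fun x y => hLsym x y, fun i j => ?_, ?_, ?_⟩
  · rw [hQL, hQL, hLL]
    simp
  · refine ContinuousLinearMap.opNorm_le_bound _ (Real.sqrt_nonneg _) fun x => ?_
    have h := hupp x
    have h2 : ‖L x‖ ≤ Real.sqrt (C * ‖x‖ ^ 2) := by
      rw [← Real.sqrt_sq (norm_nonneg (L x))]
      exact Real.sqrt_le_sqrt h
    rwa [Real.sqrt_mul' _ (sq_nonneg _), Real.sqrt_sq (norm_nonneg _)] at h2
  · refine ContinuousLinearMap.opNorm_le_bound _ (by positivity) fun y => ?_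
    have h := hlow (Q.symm y)
    rw [← hQL, Q.apply_symm_apply] at h
    have h2 : Real.sqrt (c * ‖Q.symm y‖ ^ 2) ≤ ‖y‖ := by
      rw [← Real.sqrt_sq (norm_nonneg y)]
      exact Real.sqrt_le_sqrt h
    rw [Real.sqrt_mul' _ (sq_nonneg _), Real.sqrt_sq (norm_nonneg _)] at h2
    have hsc : 0 < Real.sqrt c := Real.sqrt_pos.2 hc
    show ‖Q.symm y‖ ≤ 1 / Real.sqrt c * ‖y‖
    rw [one_div, ← div_eq_inv_mul, le_div_iff₀ hsc, mul_comm]
    exact h2

/-- Parseval: the sum over any orthonormal basis. -/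
theorem sum_d2_basis {ι : Type*} [Fintype ι] (b : OrthonormalBasis ι ℝ (E n)) {τ : Mt n}
    {Q : E n ≃L[ℝ] E n} (hQs : ∀ x y : E n, inner ℝ (Q x) y = inner ℝ x (Q y))
    (hQ : ∀ i j, inner ℝ (Q (EuclideanSpace.single i (1 : ℝ)))
      (Q (EuclideanSpace.single j (1 : ℝ))) = τ i j)
    {u : E n → ℝ} (hu : ContDiff ℝ 2 u) (x : E n) :
    ∑ k, MMB2.d2 (Q (b k)) (Q (b k)) u x = tr2 τ (hess u x) := by
  have h1 : ∀ k i, (Q (b k)) i = inner ℝ (b k) (Q (EuclideanSpace.single i (1 : ℝ))) := by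
    intro k i
    rw [← hQs]
    simp [EuclideanSpace.inner_single_right]
  have h2 : ∀ i j, ∑ k, (Q (b k)) i * (Q (b k)) j = τ i j := by
    intro i j
    rw [← hQ i j, ← b.sum_inner_mul_inner]
    refine Finset.sum_congr rfl fun k _ => ?_
    rw [h1, h1, real_inner_comm]
  simp only [d2_eq_sum hu, tr2, hess, Matrix.of_apply]
  rw [Finset.sum_comm]
  refine Finset.sum_congr rfl fun i _ => ?_
  rw [Finset.sum_comm]
  refine Finset.sum_congr rfl fun j _ => ?_
  rw [← h2 i j, Finset.sum_mul]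

/-- The operators agree. -/
theorem AQ_eq_AK {τ : Mt n} {Q : E n ≃L[ℝ] E n}
    (hQs : ∀ x y : E n, inner ℝ (Q x) y = inner ℝ x (Q y))
    (hQ : ∀ i j, inner ℝ (Q (EuclideanSpace.single i (1 : ℝ)))
      (Q (EuclideanSpace.single j (1 : ℝ))) = τ i j)
    {u : E n → ℝ} (hu : ContDiff ℝ 2 u) (κ : ℝ) (x : E n) :
    MMB2.AQ Q u x + (-κ) * u x = AK (fun _ => τ) κ u x := by
  unfold MMB2.AQ AK LL
  rw [sum_d2_basis (stdOrthonormalBasis ℝ (E n)) hQs hQ hu x]
  unfold eul MMB2.d1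
  ring

/-- `BE0` with a constant uniform in `κ ≤ 1`. -/
def BE0u (n : ℕ) : Prop :=
  ∀ c C : ℝ, 0 < c → ∃ K : ℝ, 0 ≤ K ∧ ∀ κ : ℝ, κ ≤ 1 →
    ∀ τ₀ : Mt n, (∀ i j, τ₀ i j = τ₀ j i) → LB c τ₀ → UB C τ₀ →
    ∀ w : E n → ℝ, ContDiff ℝ 2 w → (∃ M, ∀ x i j, |pd i (pd j w) x| ≤ M) →
    ∀ N : ℝ, 0 ≤ N →
      (∀ x y, |AK (fun _ => τ₀) κ w x - AK (fun _ => τ₀) κ w y| ≤ N * Real.sqrt (dist x y)) →
      ∀ i j, H0 (K * N) (pd i (pd j w))

/-- **Row R0 (bridge)**, constant uniform in `κ ≤ 1`. -/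
theorem row_BE0u (hcore : MMB2.ST_CORE) (n : ℕ) : BE0u n := by
  intro c C hc
  obtain ⟨A, hA0, hA⟩ := hcore (E n) (max (Real.sqrt C) (1 / Real.sqrt c))
  refine ⟨A, hA0, ?_⟩
  intro κ hκ τ hs hlo hup w hw hM N hN hH i j
  obtain ⟨M, hM⟩ := hM
  obtain ⟨Q, hQs, hQ, hQn, hQn'⟩ := exists_sqrt_matrix hc hs hlo hup
  obtain ⟨h1, h2⟩ := hA Q (hQn.trans (le_max_left _ _)) (hQn'.trans (le_max_right _ _)) (-κ)
    (by linarith) w (n * n * |M|) N hw (fun x a b => d2_bound hw x (hM x) a b) (by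
      intro x y
      have e : (fun x => MMB2.AQ Q w x + (-κ) * w x) = AK (fun _ => τ) κ w :=
        funext fun x => AQ_eq_AK hQs hQ hw κ x
      rw [e, ← dist_eq_norm]
      exact hH x y)
  have e1 : ∀ k : Fin n, ‖(EuclideanSpace.single k (1 : ℝ) : E n)‖ = 1 := fun k => by simp
  refine ⟨fun x => ?_, fun x y => ?_⟩
  · have := h1 x (EuclideanSpace.single j (1 : ℝ)) (EuclideanSpace.single i (1 : ℝ))
    rw [e1, e1, mul_one, mul_one] at this
    exact this
  · have := h2 (EuclideanSpace.single j (1 : ℝ)) (EuclideanSpace.single i (1 : ℝ)) x y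
    rw [e1, e1, mul_one, mul_one, ← dist_eq_norm] at this
    exact this

/-- **Row R0 (bridge).** -/
theorem row_BE0 (hcore : MMB2.ST_CORE) (n : ℕ) : BE0 n := by
  intro c C κ hc hκ
  obtain ⟨K, hK0, hK⟩ := row_BE0u hcore n c C hc
  exact ⟨K, hK0, hK κ hκ⟩

end CM
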