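import Pool.Agent.Helper44.CM.StmtsB5
import Pool.Agent.Helper29.MM.Basic
import Pool.Agent.Helper35.MM.Int1
import Pool.Agent.Helper35.MM.Bridge

/-!
# Project MM: bridges from block B3 to the interface
-/

open MeasureTheory

namespace CM

namespace H35

variable {n : ℕ}

/-- Quadratic form bound from entries. -/
theorem ub_of_entries {K : ℝ} {M : Mt n} (h : ∀ i j, |M i j| ≤ K) : UB (n * K) M := by
  intro v
  have h1 : ∑ i, ∑ j, v i * M i j * v j ≤ ∑ i, ∑ j, K * ((v i ^ 2 + v j ^ 2) / 2) := by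
    refine Finset.sum_le_sum fun i _ => Finset.sum_le_sum fun j _ => ?_
    have hK : 0 ≤ K := (abs_nonneg _).trans (h i j)
    calc v i * M i j * v j ≤ |v i * M i j * v j| := le_abs_self _
      _ = |M i j| * (|v i| * |v j|) := by rw [abs_mul, abs_mul]; ring
      _ ≤ K * (|v i| * |v j|) := mul_le_mul_of_nonneg_right (h i j) (by positivity)
      _ ≤ K * ((v i ^ 2 + v j ^ 2) / 2) := by
        refine mul_le_mul_of_nonneg_left ?_ hK
        nlinarith [sq_nonneg (|v i| - |v j|), sq_abs (v i), sq_abs (v j)]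
  refine h1.trans (le_of_eq ?_)
  have h2 : ∀ i : Fin n, ∑ j : Fin n, K * ((v i ^ 2 + v j ^ 2) / 2)
      = K / 2 * (n * v i ^ 2 + ∑ j, v j ^ 2) := by
    intro i
    rw [← Finset.mul_sum, ← Finset.sum_div, Finset.sum_add_distrib, Finset.sum_const,
      Finset.card_univ, Fintype.card_fin, nsmul_eq_mul]
    ring
  simp only [h2]
  rw [← Finset.mul_sum, Finset.sum_add_distrib, ← Finset.mul_sum, Finset.sum_const,
    Finset.card_univ, Fintype.card_fin, nsmul_eq_mul]
  ring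

theorem h0_of_lip_bdd {K : ℝ} (hK : 0 ≤ K) {f : E n → ℝ} (hb : ∀ x, |f x| ≤ K)
    (hl : ∀ x y, |f x - f y| ≤ K * dist x y) : H0 (2 * K) f := by
  refine ⟨fun x => (hb x).trans (by linarith), fun x y => ?_⟩
  rcases le_total (dist x y) 1 with h | h
  · have h1 : dist x y ≤ Real.sqrt (dist x y) := by
      have := Real.sq_sqrt (dist_nonneg (x := x) (y := y))
      have h2 : Real.sqrt (dist x y) ≤ 1 := by
        simpa using Real.sqrt_le_sqrt h
      nlinarith [Real.sqrt_nonneg (dist x y)]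
    calc |f x - f y| ≤ K * dist x y := hl x y
      _ ≤ K * Real.sqrt (dist x y) := mul_le_mul_of_nonneg_left h1 hK
      _ ≤ 2 * K * Real.sqrt (dist x y) := by nlinarith [Real.sqrt_nonneg (dist x y)]
  · have h1 : 1 ≤ Real.sqrt (dist x y) := by
      rw [Real.one_le_sqrt]; exact h
    calc |f x - f y| ≤ |f x| + |f y| := abs_sub _ _
      _ ≤ 2 * K := by linarith [hb x, hb y]
      _ ≤ 2 * K * Real.sqrt (dist x y) := by nlinarith

/-- Bridge (1). -/
theorem coef_tok {K : ℝ} {τ : E n → Mt n} (h : Coef K τ) : TOK K⁻¹ (n * K) (2 * K) τ := by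
  have hK : 0 ≤ K := by linarith [h.K_ge]
  refine ⟨fun x i j => ?_, h.lo, fun x => ub_of_entries (h.bd x), fun i j =>
    h0_of_lip_bdd hK (fun x => h.bd x i j) (fun x y => h.lip x y i j), fun x i j => ?_,
    fun x y i j => ?_⟩
  · have := (h.symm x).apply i j
    exact this.symm
  · refine (h.far x i j).trans ?_
    exact div_le_div_of_nonneg_right (by linarith) (Real.sqrt_nonneg _)
  · refine (h.lip x y i j).trans ?_
    exact mul_le_mul_of_nonneg_right (by linarith) dist_nonneg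

/-- The gradient is controlled by `u` and `D²u`. -/
theorem grad_interp {u : E n → ℝ} (hu : ContDiff ℝ 2 u) {M G R ε : ℝ} (hε : 0 < ε) (hε1 : ε ≤ 1)
    (hM : ∀ i j, ∀ x, |pd i (pd j u) x| ≤ M) (hM0 : 0 ≤ M)
    (hG : ∀ x, ‖x‖ ≤ R + 1 → |u x| ≤ G) (i : Fin n) :
    ∀ x, ‖x‖ ≤ R → |pd i u x| ≤ ε * (n * M) + 2 / ε ^ 2 * G := by
  intro x hx
  have hd : Differentiable ℝ u := hu.differentiable (by norm_num)
  have hd1 : Differentiable ℝ (pd i u) := (B3.contDiff_pd_of_two i hu).differentiable (by norm_num)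
  refine pd_interp i x hε hε1 (fun y _ => hd y) (fun y hy => hG y ?_) (by positivity)
    (fun y hy => ?_)
  · rw [Metric.mem_closedBall, dist_eq_norm] at hy
    calc ‖y‖ = ‖x + (y - x)‖ := by rw [add_sub_cancel]
      _ ≤ ‖x‖ + ‖y - x‖ := norm_add_le _ _
      _ ≤ R + 1 := by linarith
  · have h1 : |pd i u y - pd i u x| ≤ n * M * dist y x := by
      have hc : Convex ℝ (Set.univ : Set (E n)) := convex_univ
      have := hc.norm_image_sub_le_of_norm_fderiv_le (f := pd i u) (C := n * M) (x := x) (y := y)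
        (fun z _ => hd1 z) (fun z _ => B3.norm_fderiv_le fun j => hM j i z) (Set.mem_univ _)
        (Set.mem_univ _)
      rw [Real.norm_eq_abs] at this
      rwa [dist_eq_norm]
    have h2 : dist y x ≤ Real.sqrt (dist y x) := by
      have hy1 : dist y x ≤ 1 := Metric.mem_closedBall.1 hy
      have := Real.sq_sqrt (dist_nonneg (x := y) (y := x))
      have h2 : Real.sqrt (dist y x) ≤ 1 := by
        simpa using Real.sqrt_le_sqrt hy1
      nlinarith [Real.sqrt_nonneg (dist y x)]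
    exact h1.trans (mul_le_mul_of_nonneg_left h2 (by positivity))

theorem h2_zero_iff {M : ℝ} {u : E n → ℝ} (hu : ContDiff ℝ 2 u) :
    H2 0 M u ↔ ∀ i j, H0 M (pd i (pd j u)) := by
  constructor
  · intro h i j
    exact B3.hb_h0 (h.2 i j)
  · intro h
    refine ⟨by simpa using hu, fun i j => ?_⟩
    rw [B3.HB_zero_iff]
    refine ⟨?_, h i j⟩
    have h1 := B3.contDiff_pd_of_two j hu
    have h2 := B3.contDiff_pd (n := n) i (k := 0) (f := pd j u) (by simpa using h1)
    exact h2.continuous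

/-- Bridge (2). -/
theorem st_BE (hU : ∀ n, StUNI' n) : ST_BE := by
  intro n K κ hκ
  by_cases hK : 1 ≤ K
  swap
  · exact ⟨0, 0, fun τ hτ => absurd hτ.K_ge hK⟩
  have hK0 : 0 < K := by linarith
  obtain ⟨R, A, hR, hA, H⟩ := hU n K⁻¹ (n * K) (2 * K) κ (inv_pos.2 hK0) hκ
  -- choose `ε` with `A * (ε * n) ≤ 1/2`
  set ε : ℝ := 1 / (2 * (A + 1) * (n + 1)) with hεd
  have hn0 : (0 : ℝ) ≤ n := Nat.cast_nonneg n
  have hε : 0 < ε := by positivity
  have hε1 : ε ≤ 1 := by
    rw [hεd, div_le_one (by positivity)]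
    nlinarith [mul_nonneg hA hn0]
  refine ⟨2 * (A * (2 + 2 / ε ^ 2)), R + 1, ?_⟩
  intro τ hτ u M N hu hF hN _
  have hu2 : ContDiff ℝ 2 u := by simpa using hu.1
  have hN0 : 0 ≤ N := B3.h0_nonneg hF
  have key : H2 0 (2 * (A * (2 + 2 / ε ^ 2) * N)) u := by
    refine H2.absorb ⟨M, hu⟩ fun M' hM' => ?_
    have hM'' := (h2_zero_iff hu2).1 hM'
    rw [h2_zero_iff hu2]
    intro i j
    have hM0 : 0 ≤ M' := B3.h0_nonneg (hM'' i j)
    have hgr : ∀ i, ∀ x, ‖x‖ ≤ R → |pd i u x| ≤ ε * (n * M') + 2 / ε ^ 2 * N := fun i =>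
      grad_interp hu2 hε hε1 (fun i j x => (hM'' i j).1 x) hM0 hN i
    have hB0 : 0 ≤ ε * (n * M') + (1 + 2 / ε ^ 2) * N := by positivity
    have h1 := H τ (coef_tok hτ) u hu2 ⟨M, (h2_zero_iff hu2).1 hu⟩ N
      (ε * (n * M') + (1 + 2 / ε ^ 2) * N) hN0 hB0 hF (fun x hx => by
        have hx' : ‖x‖ ≤ R := mem_closedBall_zero_iff.1 hx
        refine ⟨(hN x (by linarith)).trans ?_, fun i => (hgr i x hx').trans ?_⟩
        · have : 0 ≤ ε * (n * M') := by positivity
          have : 0 ≤ 2 / ε ^ 2 * N := by positivity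
          nlinarith
        · nlinarith) i j
    refine h1.mono ?_
    have e1 : A * (ε * (n * M')) ≤ M' / 2 := by
      have : A * (ε * n) ≤ 1 / 2 := by
        rw [hεd]
        rw [div_mul_eq_mul_div, one_mul, mul_div_assoc', div_le_iff₀ (by positivity)]
        nlinarith [mul_nonneg hA hn0]
      calc A * (ε * (n * M')) = A * (ε * n) * M' := by ring
        _ ≤ 1 / 2 * M' := mul_le_mul_of_nonneg_right this hM0
        _ = M' / 2 := by ring
    have e2 : A * (N + (ε * (n * M') + (1 + 2 / ε ^ 2) * N))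
        = A * (ε * (n * M')) + A * (2 + 2 / ε ^ 2) * N := by ring
    rw [e2]
    linarith
  have e3 : 2 * (A * (2 + 2 / ε ^ 2)) * N = 2 * (A * (2 + 2 / ε ^ 2) * N) := by ring
  rw [e3]
  exact key

/-- Bridge (3). -/
theorem high_of_level (hL : ∀ n, StLEVEL n) : ST_HIGH := by
  intro n j K κ hκ
  by_cases hK : 1 ≤ K
  swap
  · exact ⟨0, 0, fun τ hτ => absurd hτ.K_ge hK⟩
  have hK0 : 0 < K := by linarith
  obtain ⟨R, A, hR, hA, H⟩ := hL n j K⁻¹ (n * K) (2 * K) κ (inv_pos.2 hK0) hκ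
  refine ⟨2 * A, R, ?_⟩
  intro τ hτ hHB u M N hu hF h1 h2
  have hN0 : 0 ≤ N := B3.hb_nonneg hF
  have h := H τ (coef_tok hτ) (fun a b => (hHB a b).mono' (by linarith)) u ⟨M, hu⟩ N N hN0 hN0 hF
    (fun x hx => ⟨h1 x (mem_closedBall_zero_iff.1 hx), fun i => h2 x i
      (mem_closedBall_zero_iff.1 hx)⟩)
  have e : A * (N + N) = 2 * A * N := by ring
  rwa [e] at h

/-- Bridge (4). -/
theorem st_BE0 (hcore : MMB2.ST_CORE) : ST_BE0 := by
  intro n
  obtain ⟨C, hC0, hC⟩ := row_BE0u hcore n 1 1 one_pos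
  refine ⟨C, ?_⟩
  intro κ u M N hκ hu hM hF i j
  have hid : ∀ v : Fin n → ℝ, ∑ i, ∑ j, v i * (1 : Mt n) i j * v j = ∑ i, v i ^ 2 := by
    intro v
    refine Finset.sum_congr rfl fun i _ => ?_
    rw [Finset.sum_eq_single i]
    · rw [Matrix.one_apply_eq]; ring
    · intro b _ hb
      rw [Matrix.one_apply_ne hb.symm]; ring
    · intro h; exact absurd (Finset.mem_univ i) h
  exact hC κ hκ 1 (fun i j => by
      rcases eq_or_ne i j with h | h
      · rw [h]
      · rw [Matrix.one_apply_ne h, Matrix.one_apply_ne h.symm])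
    (fun v => by rw [hid, one_mul]) (fun v => by rw [hid, one_mul]) u hu ⟨M, hM⟩ N
    (B3.h0_nonneg hF) hF.2 i j

end H35

end CM
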