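import Pool.Agent.Helper29.MM.Stmts_B3

/-!
# Project MM, block B3: row R6 (local sup norm by Hoelder constant and L²)
-/

open MeasureTheory

namespace CM

variable {n : ℕ}

/-- One ball: if `g` is continuous and `|g y - g x| ≤ H √(dist y x)` on `closedBall x δ`, then
`g(x)² vol(B) ≤ 2 ∫_B g² + 2 H² δ vol(B)`. -/
theorem sq_le_avg {g : E n → ℝ} (hg : Continuous g) (x : E n) {δ H : ℝ} (hδ : 0 < δ)
    (hH0 : 0 ≤ H)
    (hH : ∀ y ∈ Metric.closedBall x δ, |g y - g x| ≤ H * Real.sqrt (dist y x)) :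
    g x ^ 2 * (volume.real (Metric.closedBall x δ)) ≤
      2 * (∫ y in Metric.closedBall x δ, g y ^ 2) +
        2 * H ^ 2 * δ * volume.real (Metric.closedBall x δ) := by
  have hfin : volume (Metric.closedBall x δ) ≠ ⊤ := measure_closedBall_lt_top.ne
  have hint : IntegrableOn (fun y => g y ^ 2) (Metric.closedBall x δ) :=
    (hg.pow 2).continuousOn.integrableOn_compact (isCompact_closedBall x δ)
  have hc : ∀ c : ℝ, IntegrableOn (fun _ : E n => c) (Metric.closedBall x δ) :=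
    fun c => integrableOn_const hfin
  have h1 : ∫ _y in Metric.closedBall x δ, g x ^ 2 ≤
      ∫ y in Metric.closedBall x δ, (2 * g y ^ 2 + 2 * H ^ 2 * δ) := by
    refine setIntegral_mono_on (hc _) ((hint.const_mul 2).add (hc _)) measurableSet_closedBall ?_
    intro y hy
    have h2 := hH y hy
    have h3 : H * Real.sqrt (dist y x) ≤ H * Real.sqrt δ :=
      mul_le_mul_of_nonneg_left (Real.sqrt_le_sqrt (Metric.mem_closedBall.1 hy)) hH0
    have h4 : (g y - g x) ^ 2 ≤ H ^ 2 * δ := by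
      rw [← sq_abs (g y - g x)]
      calc |g y - g x| ^ 2 ≤ (H * Real.sqrt δ) ^ 2 :=
            pow_le_pow_left₀ (abs_nonneg _) (h2.trans h3) 2
        _ = H ^ 2 * δ := by rw [mul_pow, Real.sq_sqrt hδ.le]
    nlinarith [sq_nonneg (g y + (g y - g x))]
  rw [setIntegral_const, integral_add (hint.const_mul 2) (hc _), integral_const_mul,
    setIntegral_const, smul_eq_mul, smul_eq_mul] at h1
  linarith

/-- The volume of a ball of radius `δ`. -/
theorem vol_ball_pos {δ : ℝ} (hδ : 0 < δ) :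
    0 < volume.real (Metric.closedBall (0 : E n) δ) := by
  rw [Measure.real, ENNReal.toReal_pos_iff]
  exact ⟨Metric.measure_closedBall_pos _ _ hδ, measure_closedBall_lt_top⟩

theorem vol_ball_eq (x : E n) (δ : ℝ) :
    volume.real (Metric.closedBall x δ) = volume.real (Metric.closedBall (0 : E n) δ) := by
  rw [Measure.real, Measure.real, Measure.addHaar_closedBall_center]

/-- **R6 (INT2), one point.** -/
theorem abs_le_L2_point {g : E n → ℝ} (hg : Continuous g) (x : E n) {δ H : ℝ} (hδ : 0 < δ)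
    (hH0 : 0 ≤ H)
    (hH : ∀ y ∈ Metric.closedBall x δ, |g y - g x| ≤ H * Real.sqrt (dist y x)) :
    |g x| ≤ Real.sqrt (2 * δ) * H + Real.sqrt (2 / volume.real (Metric.closedBall (0 : E n) δ)) *
        Real.sqrt (∫ y in Metric.closedBall x δ, g y ^ 2) := by
  have h := sq_le_avg hg x hδ hH0 hH
  rw [vol_ball_eq] at h
  have hv := vol_ball_pos (n := n) hδ
  set v := volume.real (Metric.closedBall (0 : E n) δ) with hvdef
  set I := ∫ y in Metric.closedBall x δ, g y ^ 2 with hI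
  have hI0 : 0 ≤ I := integral_nonneg fun y => sq_nonneg _
  have h5 : g x ^ 2 ≤ 2 * δ * H ^ 2 + 2 / v * I := by
    have : g x ^ 2 * v ≤ (2 * δ * H ^ 2 + 2 / v * I) * v := by
      have e : (2 * δ * H ^ 2 + 2 / v * I) * v = 2 * I + 2 * H ^ 2 * δ * v := by
        field_simp; ring
      rw [e]; exact h
    exact le_of_mul_le_mul_right this hv
  have hA : 0 ≤ Real.sqrt (2 * δ) * H := by positivity
  have hB : 0 ≤ Real.sqrt (2 / v) * Real.sqrt I := by positivity
  refine abs_le_of_sq_le_sq ?_ (add_nonneg hA hB)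
  have e1 : (Real.sqrt (2 * δ) * H) ^ 2 = 2 * δ * H ^ 2 := by
    rw [mul_pow, Real.sq_sqrt (by positivity)]
  have e2 : (Real.sqrt (2 / v) * Real.sqrt I) ^ 2 = 2 / v * I := by
    rw [mul_pow, Real.sq_sqrt (by positivity), Real.sq_sqrt hI0]
  nlinarith [mul_nonneg hA hB]

/-- **R6 (INT2).** For every `R` and `ε > 0` there is `C` such that for continuous `g` with Hoelder
constant `H` on the ball of radius `R + 1`:
`sup_{B_R} |g| ≤ ε H + C (∫_{B_{R+1}} g²)^{1/2}`. -/
theorem sup_le_L2 (n : ℕ) (R : ℝ) {ε : ℝ} (hε : 0 < ε) : ∃ C : ℝ, 0 ≤ C ∧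
    ∀ (g : E n → ℝ) (H : ℝ), Continuous g → 0 ≤ H →
      (∀ x y, ‖x‖ ≤ R → ‖y‖ ≤ R + 1 → |g y - g x| ≤ H * Real.sqrt (dist y x)) →
      ∀ x, ‖x‖ ≤ R → |g x| ≤ ε * H +
        C * Real.sqrt (∫ y in Metric.closedBall (0 : E n) (R + 1), g y ^ 2) := by
  set δ : ℝ := min 1 (ε ^ 2 / 2) with hδd
  have hδ : 0 < δ := lt_min one_pos (by positivity)
  have hδ1 : δ ≤ 1 := min_le_left _ _
  have hδε : Real.sqrt (2 * δ) ≤ ε := by
    rw [Real.sqrt_le_left hε.le]
    have : δ ≤ ε ^ 2 / 2 := min_le_right _ _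
    linarith
  refine ⟨Real.sqrt (2 / volume.real (Metric.closedBall (0 : E n) δ)), Real.sqrt_nonneg _, ?_⟩
  intro g H hg hH0 hH x hx
  have hsub : Metric.closedBall x δ ⊆ Metric.closedBall (0 : E n) (R + 1) := by
    intro y hy
    rw [Metric.mem_closedBall, dist_eq_norm] at hy
    rw [mem_closedBall_zero_iff]
    calc ‖y‖ = ‖x + (y - x)‖ := by rw [add_sub_cancel]
      _ ≤ ‖x‖ + ‖y - x‖ := norm_add_le _ _
      _ ≤ R + 1 := by linarith
  have h1 := abs_le_L2_point hg x hδ hH0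
    (fun y hy => hH x y hx (mem_closedBall_zero_iff.1 (hsub hy)))
  have hint : IntegrableOn (fun y => g y ^ 2) (Metric.closedBall (0 : E n) (R + 1)) :=
    (hg.pow 2).continuousOn.integrableOn_compact (isCompact_closedBall _ _)
  have h2 : ∫ y in Metric.closedBall x δ, g y ^ 2 ≤
      ∫ y in Metric.closedBall (0 : E n) (R + 1), g y ^ 2 :=
    setIntegral_mono_set hint (Filter.Eventually.of_forall fun y => sq_nonneg _)
      (Filter.Eventually.of_forall hsub)
  calc |g x| ≤ _ := h1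
    _ ≤ ε * H + Real.sqrt (2 / volume.real (Metric.closedBall (0 : E n) δ)) *
        Real.sqrt (∫ y in Metric.closedBall (0 : E n) (R + 1), g y ^ 2) :=
      add_le_add (mul_le_mul_of_nonneg_right hδε hH0)
        (mul_le_mul_of_nonneg_left (Real.sqrt_le_sqrt h2) (Real.sqrt_nonneg _))

/-- **R6 with a weight.** `w ≥ m > 0` on the ball of radius `R + 1`, `w ≥ 0` everywhere. -/
theorem sup_le_L2_weight (n : ℕ) (R : ℝ) {ε m : ℝ} (hε : 0 < ε) (hm : 0 < m) : ∃ C : ℝ, 0 ≤ C ∧
    ∀ (w g : E n → ℝ) (H : ℝ), (∀ x, 0 ≤ w x) → (∀ x, ‖x‖ ≤ R + 1 → m ≤ w x) →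
      Continuous g → Integrable (fun y => g y ^ 2 * w y) → 0 ≤ H →
      (∀ x y, ‖x‖ ≤ R → ‖y‖ ≤ R + 1 → |g y - g x| ≤ H * Real.sqrt (dist y x)) →
      ∀ x, ‖x‖ ≤ R → |g x| ≤ ε * H + C * Real.sqrt (∫ y, g y ^ 2 * w y) := by
  obtain ⟨C, hC0, hC⟩ := sup_le_L2 n R hε
  refine ⟨C * Real.sqrt (1 / m), by positivity, ?_⟩
  intro w g H hw hwm hg hi hH0 hH x hx
  have h1 := hC g H hg hH0 hH x hx
  have hint : IntegrableOn (fun y => g y ^ 2) (Metric.closedBall (0 : E n) (R + 1)) :=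
    (hg.pow 2).continuousOn.integrableOn_compact (isCompact_closedBall _ _)
  have h2 : ∫ y in Metric.closedBall (0 : E n) (R + 1), g y ^ 2 ≤
      1 / m * ∫ y, g y ^ 2 * w y := by
    rw [← integral_const_mul]
    calc ∫ y in Metric.closedBall (0 : E n) (R + 1), g y ^ 2
        ≤ ∫ y in Metric.closedBall (0 : E n) (R + 1), 1 / m * (g y ^ 2 * w y) := by
          refine setIntegral_mono_on hint (hi.const_mul _).integrableOn
            measurableSet_closedBall ?_
          intro y hy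
          have h3 := hwm y (mem_closedBall_zero_iff.1 hy)
          have h4 : 1 ≤ 1 / m * w y := by
            rw [one_div, ← div_eq_inv_mul, le_div_iff₀ hm]; linarith
          nlinarith [sq_nonneg (g y)]
      _ ≤ ∫ y, 1 / m * (g y ^ 2 * w y) :=
          setIntegral_le_integral (hi.const_mul _) (Filter.Eventually.of_forall fun y => by
            have := hw y
            positivity)
  have h5 : Real.sqrt (∫ y in Metric.closedBall (0 : E n) (R + 1), g y ^ 2) ≤
      Real.sqrt (1 / m) * Real.sqrt (∫ y, g y ^ 2 * w y) := by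
    rw [← Real.sqrt_mul (by positivity)]
    exact Real.sqrt_le_sqrt h2
  calc |g x| ≤ _ := h1
    _ ≤ ε * H + C * (Real.sqrt (1 / m) * Real.sqrt (∫ y, g y ^ 2 * w y)) := by
      gcongr
    _ = _ := by ring

/-- **R6 for `H0` functions.** -/
theorem sup_le_L2_H0 (n : ℕ) (R : ℝ) {ε m : ℝ} (hε : 0 < ε) (hm : 0 < m) : ∃ C : ℝ, 0 ≤ C ∧
    ∀ (w g : E n → ℝ) (H : ℝ), (∀ x, 0 ≤ w x) → (∀ x, ‖x‖ ≤ R + 1 → m ≤ w x) →
      Integrable w → H0 H g →
      ∀ x, ‖x‖ ≤ R → |g x| ≤ ε * H + C * Real.sqrt (∫ y, g y ^ 2 * w y) := by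
  obtain ⟨C, hC0, hC⟩ := sup_le_L2_weight n R hε hm
  refine ⟨C, hC0, ?_⟩
  intro w g H hw hwm hwi hH x hx
  have hH0 : 0 ≤ H := (abs_nonneg _).trans (hH.1 0)
  have hg : Continuous g := by
    rw [Metric.continuous_iff]
    intro b ε hε
    refine ⟨(ε / (H + 1)) ^ 2, by positivity, fun a ha => ?_⟩
    rw [Real.dist_eq]
    have h1 : Real.sqrt (dist a b) < ε / (H + 1) := by
      rw [Real.sqrt_lt' (by positivity)]
      exact ha
    calc |g a - g b| ≤ H * Real.sqrt (dist a b) := hH.2 a b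
      _ ≤ (H + 1) * Real.sqrt (dist a b) :=
        mul_le_mul_of_nonneg_right (by linarith) (Real.sqrt_nonneg _)
      _ < (H + 1) * (ε / (H + 1)) := mul_lt_mul_of_pos_left h1 (by positivity)
      _ = ε := by field_simp
  refine hC w g H hw hwm hg ?_ hH0 (fun x y _ _ => hH.2 y x) x hx
  refine Integrable.mono' (hwi.const_mul (H ^ 2)) ((hg.pow 2).aestronglyMeasurable.mul
    hwi.aestronglyMeasurable) (Filter.Eventually.of_forall fun y => ?_)
  rw [Real.norm_eq_abs, abs_mul, abs_of_nonneg (hw y), abs_of_nonneg (sq_nonneg _)]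
  refine mul_le_mul_of_nonneg_right ?_ (hw y)
  have := hH.1 y
  rw [← sq_abs (g y)]
  exact pow_le_pow_left₀ (abs_nonneg _) this 2

/-- **Row INT2.** -/
theorem row_INT2 (n : ℕ) : StINT2 n := by
  intro ε hε
  set δ : ℝ := min 1 (ε ^ 2 / 2) with hδd
  have hδ : 0 < δ := lt_min one_pos (by positivity)
  have hδ1 : δ ≤ 1 := min_le_left _ _
  have hδε : Real.sqrt (2 * δ) ≤ ε := by
    rw [Real.sqrt_le_left hε.le]
    have : δ ≤ ε ^ 2 / 2 := min_le_right _ _
    linarith
  refine ⟨Real.sqrt (2 / volume.real (Metric.closedBall (0 : E n) δ)), Real.sqrt_nonneg _, ?_⟩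
  intro g x H B hg hH0 hB0 hH hB
  have hsub : Metric.closedBall x δ ⊆ Metric.closedBall x 1 :=
    Metric.closedBall_subset_closedBall hδ1
  have h1 := abs_le_L2_point hg x hδ hH0 (fun y hy => by
    rw [abs_sub_comm, dist_comm]; exact hH y (hsub hy))
  have hint : IntegrableOn (fun y => g y ^ 2) (Metric.closedBall x 1) :=
    (hg.pow 2).continuousOn.integrableOn_compact (isCompact_closedBall _ _)
  have h2 : ∫ y in Metric.closedBall x δ, g y ^ 2 ≤ ∫ y in Metric.closedBall x 1, g y ^ 2 :=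
    setIntegral_mono_set hint (Filter.Eventually.of_forall fun y => sq_nonneg _)
      (Filter.Eventually.of_forall hsub)
  have h3 : Real.sqrt (∫ y in Metric.closedBall x δ, g y ^ 2) ≤ B := by
    rw [Real.sqrt_le_left hB0]
    exact h2.trans hB
  calc |g x| ≤ _ := h1
    _ ≤ _ := add_le_add (mul_le_mul_of_nonneg_right hδε hH0)
        (mul_le_mul_of_nonneg_left h3 (Real.sqrt_nonneg _))

end CM
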